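import Pool.Agent.Q81.Un4
import Pool.Agent.Q81.LaguerreIneq

/-!
# The largest zero modulus for the class `U_n`
-/

namespace Pool.Agent.Results.MP_03af15_an.LargestZero

open Polynomial Finset Q81.Un

/-- `e_k = x(x-1)...(x-k+1)/(a(a+1)...(a+k-1))` -/
noncomputable def ek (a : ℝ) (k : ℕ) : ℝ[X] :=
  C ((∏ i ∈ range k, (a + (i : ℝ)))⁻¹) * ∏ i ∈ range k, (X - C (i : ℝ))

/-- all complex zeros of `q` are real and lie in `[-1, 0]` -/
def ZerosInUnit (q : ℝ[X]) : Prop := ∀ w : ℂ, aeval w q = 0 → w.im = 0 ∧ -1 ≤ w.re ∧ w.re ≤ 0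

section
variable {a : ℝ} (ha : 0 < a)
include ha

lemma prod_ne (k : ℕ) : (∏ i ∈ range k, (a + (i : ℝ))) ≠ 0 :=
  (prod_pos fun i _ => by positivity).ne'

omit ha in
lemma ek_zero : ek a 0 = 1 := by simp [ek]

lemma X_mul_ek (k : ℕ) : X * ek a k = C (a + k) * ek a (k + 1) + C (k : ℝ) * ek a k := by
  have h1 : (a + (k : ℝ)) * (∏ i ∈ range (k + 1), (a + (i : ℝ)))⁻¹ =
      (∏ i ∈ range k, (a + (i : ℝ)))⁻¹ := by
    rw [prod_range_succ]
    have h2 := prod_ne ha k
    have h3 : a + (k : ℝ) ≠ 0 := by positivity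
    field_simp
  have h4 : C (a + k) * ek a (k + 1) =
      C ((∏ i ∈ range k, (a + (i : ℝ)))⁻¹) * ((∏ i ∈ range k, (X - C (i : ℝ))) * (X - C (k : ℝ))) := by
    rw [ek, ← mul_assoc, ← C_mul, h1, prod_range_succ (fun i : ℕ => (X - C (i : ℝ) : ℝ[X]))]
  rw [h4, ek]
  ring

lemma ext_ek {M : Type*} [AddCommGroup M] [Module ℝ M] {f g : ℝ[X] →ₗ[ℝ] M}
    (h : ∀ k, f (ek a k) = g (ek a k)) : f = g := by
  have h1 : ∀ m k : ℕ, f (X ^ m * ek a k) = g (X ^ m * ek a k) := by
    intro m
    induction m with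
    | zero => intro k; simpa using h k
    | succ m ih =>
      intro k
      have e : X ^ (m + 1) * ek a k = (a + (k : ℝ)) • (X ^ m * ek a (k + 1)) +
          (k : ℝ) • (X ^ m * ek a k) := by
        rw [pow_succ, mul_assoc, X_mul_ek ha, smul_eq_C_mul, smul_eq_C_mul]
        ring
      rw [e, map_add, map_smul, map_smul, map_add, map_smul, map_smul, ih, ih]
  refine Polynomial.lhom_ext' fun m => LinearMap.ext_ring ?_
  have := h1 m 0
  rw [ek_zero, mul_one] at this
  simpa [← X_pow_eq_monomial] using this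

omit ha in
lemma ek_natDegree_le (k : ℕ) : (ek a k).natDegree ≤ k := by
  rw [ek]
  refine (natDegree_C_mul_le _ _).trans ?_
  rw [natDegree_prod_of_monic _ _ fun i _ => monic_X_sub_C _]
  simp only [natDegree_X_sub_C, sum_const, card_range, smul_eq_mul, mul_one, le_refl]

omit ha in
lemma ek_coeff (k : ℕ) : (ek a k).coeff k = (∏ i ∈ range k, (a + (i : ℝ)))⁻¹ := by
  rw [ek, coeff_C_mul]
  have h1 : (∏ i ∈ range k, (X - C (i : ℝ)) : ℝ[X]).Monic := monic_prod_of_monic _ _ fun i _ => monic_X_sub_C _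
  have h2 : (∏ i ∈ range k, (X - C (i : ℝ)) : ℝ[X]).natDegree = k := by
    rw [natDegree_prod_of_monic _ _ fun i _ => monic_X_sub_C _]
    simp only [natDegree_X_sub_C, sum_const, card_range, smul_eq_mul, mul_one]
  have h3 : (∏ i ∈ range k, (X - C (i : ℝ)) : ℝ[X]).coeff k = 1 := by
    have := h1.coeff_natDegree
    rwa [h2] at this
  rw [h3, mul_one]

/-- the inverse map `X^k ↦ e_k` -/
noncomputable def Em (a : ℝ) : ℝ[X] →ₗ[ℝ] ℝ[X] :=
  Polynomial.lsum fun k => (LinearMap.id : ℝ →ₗ[ℝ] ℝ).smulRight (ek a k)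

omit ha in
lemma Em_apply (q : ℝ[X]) : Em a q = ∑ k ∈ range (q.natDegree + 1), C (q.coeff k) * ek a k := by
  rw [Em, Polynomial.lsum_apply, Polynomial.sum_over_range]
  · exact sum_congr rfl fun k _ => by simp [smul_eq_C_mul]
  · intro k; simp

omit ha in
lemma Em_X_pow (k : ℕ) : Em a (X ^ k) = ek a k := by
  rw [Em, Polynomial.lsum_apply, X_pow_eq_monomial, Polynomial.sum_monomial_index]
  · simp
  · simp

lemma Em_natDegree (q : ℝ[X]) : (Em a q).natDegree = q.natDegree := by
  by_cases h0 : q = 0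
  · rw [h0, map_zero]
  have hc : (Em a q).coeff q.natDegree ≠ 0 := by
    rw [Em_apply, finsetSum_coeff, sum_range_succ, sum_eq_zero, zero_add, coeff_C_mul, ek_coeff]
    · exact mul_ne_zero (leadingCoeff_ne_zero.2 h0) (inv_ne_zero (prod_ne ha _))
    · intro k hk
      rw [coeff_C_mul, coeff_eq_zero_of_natDegree_lt (p := ek a k)
        ((ek_natDegree_le k).trans_lt (mem_range.1 hk)), mul_zero]
  refine natDegree_eq_of_le_of_coeff_ne_zero ?_ hc
  rw [Em_apply]
  refine natDegree_sum_le_of_forall_le _ _ fun k hk => ?_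
  refine (natDegree_C_mul_le _ _).trans ((ek_natDegree_le k).trans ?_)
  have := mem_range.1 hk
  omega

variable {L : ℝ[X] →ₗ[ℝ] ℝ[X]} (hL : ∀ k, L (ek a k) = X ^ k)
include hL

lemma Em_L (P : ℝ[X]) : Em a (L P) = P := by
  have : (Em a) ∘ₗ L = LinearMap.id := ext_ek ha fun k => by
    rw [LinearMap.comp_apply, hL, Em_X_pow, LinearMap.id_apply]
  exact congrArg (fun f : ℝ[X] →ₗ[ℝ] ℝ[X] => f P) this

omit ha in
lemma L_Em (q : ℝ[X]) : L (Em a q) = q := by
  have : L ∘ₗ (Em a) = LinearMap.id := by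
    refine Polynomial.lhom_ext' fun m => LinearMap.ext_ring ?_
    simp only [LinearMap.comp_apply, LinearMap.id_apply]
    rw [← X_pow_eq_monomial, Em_X_pow, hL]
  exact congrArg (fun f : ℝ[X] →ₗ[ℝ] ℝ[X] => f q) this

lemma L_natDegree (P : ℝ[X]) : (L P).natDegree = P.natDegree := by
  conv_rhs => rw [← Em_L ha hL P]
  rw [Em_natDegree ha]

lemma aeval_eq {K : Type*} [Field K] [Algebra ℝ K] (z : K) (P : ℝ[X]) :
    aeval z P = Lam (algebraMap ℝ K a) z ((L P).map (algebraMap ℝ K)) := by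
  have : (aeval z : ℝ[X] →ₐ[ℝ] K).toLinearMap =
      ((Lam (algebraMap ℝ K a) z).restrictScalars ℝ) ∘ₗ
        (Polynomial.mapAlgHom (Algebra.ofId ℝ K)).toLinearMap ∘ₗ L := by
    refine ext_ek ha fun k => ?_
    simp only [LinearMap.comp_apply, AlgHom.toLinearMap_apply, LinearMap.restrictScalars_apply, hL]
    rw [map_pow, Polynomial.coe_mapAlgHom]
    have e : Polynomial.map ((Algebra.ofId ℝ K : ℝ →ₐ[ℝ] K) : ℝ →+* K) X = X := Polynomial.map_X _
    rw [e, Lam_X_pow, ev, ek, map_mul, aeval_C, map_prod, prod_div_distrib, map_inv₀, map_prod]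
    rw [div_eq_inv_mul]
    have e1 : ∏ i ∈ range k, (algebraMap ℝ K) (a + (i : ℝ)) =
        ∏ i ∈ range k, ((algebraMap ℝ K) a + (i : K)) :=
      prod_congr rfl fun i _ => by rw [map_add, map_natCast]
    have e2 : ∏ i ∈ range k, aeval z (X - C (i : ℝ)) = ∏ i ∈ range k, (z - (i : K)) :=
      prod_congr rfl fun i _ => by rw [map_sub, aeval_X, aeval_C, map_natCast]
    rw [e1, e2]
  exact congrArg (fun f : ℝ[X] →ₗ[ℝ] K => f P) this

end

lemma exists_L {a : ℝ} (ha : 0 < a) : ∃ L : ℝ[X] →ₗ[ℝ] ℝ[X], ∀ k, L (ek a k) = X ^ k := by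
  have hcoeff : ∀ k, (ek a k).coeff k ≠ 0 := fun k => by
    rw [ek_coeff]; exact inv_ne_zero (prod_ne ha k)
  have hdeg : ∀ k : ℕ, (ek a k).degree = (k : WithBot ℕ) := fun k => by
    have h1 : (ek a k).natDegree = k :=
      natDegree_eq_of_le_of_coeff_ne_zero (ek_natDegree_le k) (hcoeff k)
    have h2 : ek a k ≠ 0 := by
      intro h; have := hcoeff k; rw [h, coeff_zero] at this; exact this rfl
    rw [degree_eq_natDegree h2, h1]
  let S : Polynomial.Sequence ℝ := ⟨ek a, hdeg⟩
  have hS : ∀ i, IsUnit (S i).leadingCoeff := fun i => by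
    rw [isUnit_iff_ne_zero, leadingCoeff_ne_zero]
    intro h
    have := S.degree_eq i
    rw [h, degree_zero] at this
    exact absurd this (by simp)
  refine ⟨(S.basis hS).constr ℝ (fun k => (X : ℝ[X]) ^ k), fun k => ?_⟩
  have h1 := (S.basis hS).constr_basis ℝ (fun k => (X : ℝ[X]) ^ k) k
  rwa [Polynomial.Sequence.basis_eq_self] at h1

lemma exists_multiset {q : ℝ[X]} (hq : ∀ w : ℂ, aeval w q = 0 → w.im = 0) :
    ∃ S : Multiset ℝ, S.card = q.natDegree ∧ q = C q.leadingCoeff * (S.map fun s => X + C s).prod ∧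
      ∀ s ∈ S, q ≠ 0 → aeval ((-s : ℝ) : ℂ) q = 0 := by
  have hs := Q81.LaguerreIneq.splits_of_hyperbolic hq
  refine ⟨q.roots.map fun r => -r, ?_, ?_, ?_⟩
  · rw [Multiset.card_map]; exact hs.natDegree_eq_card_roots.symm
  · rw [Multiset.map_map]
    conv_lhs => rw [hs.eq_prod_roots]
    congr 2
    refine Multiset.map_congr rfl fun r _ => ?_
    simp [sub_eq_add_neg]
  · intro s hs' _
    obtain ⟨r, hr, rfl⟩ := Multiset.mem_map.1 hs'
    have h1 : q.eval r = 0 := (mem_roots'.1 hr).2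
    rw [neg_neg]
    have h2 : aeval ((algebraMap ℝ ℂ) r) q = algebraMap ℝ ℂ (q.eval r) := by
      rw [aeval_algebraMap_apply]; simp
    have h3 : aeval ((r : ℝ) : ℂ) q = ((q.eval r : ℝ) : ℂ) := h2
    rw [h3, h1]; simp

/-- the disc for non-real zeros -/
theorem nonreal {a : ℝ} (ha : 0 < a) {L : ℝ[X] →ₗ[ℝ] ℝ[X]} (hL : ∀ k, L (ek a k) = X ^ k)
    {P : ℝ[X]} (hP0 : P ≠ 0) (hP : ∀ w : ℂ, aeval w (L P) = 0 → w.im = 0) {z : ℂ}
    (hz : aeval z P = 0) (him : z.im ≠ 0) : ‖z + a / 2‖ ≤ P.natDegree - 1 + a / 2 := by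
  -- upper half-plane
  have key : ∀ z : ℂ, aeval z P = 0 → 0 < z.im → ‖z + a / 2‖ ≤ P.natDegree - 1 + a / 2 := by
    intro z hz him
    by_contra hcon
    push Not at hcon
    obtain ⟨S, hcard, hS, -⟩ := exists_multiset hP
    rw [L_natDegree ha hL] at hcard
    rw [← hcard] at hcon
    have h1 := Lam_prod_ne ha him hcon
    have h2 := aeval_eq ha hL z P
    rw [hz] at h2
    have hlead : (L P).leadingCoeff ≠ 0 := by
      rw [leadingCoeff_ne_zero]
      intro h
      have := Em_L ha hL P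
      rw [h, map_zero] at this
      exact hP0 this.symm
    rw [hS] at h2
    rw [Polynomial.map_mul, map_C, Lam_C_mul] at h2
    have h3 : ((S.map fun s => (X + C s : ℝ[X])).prod).map (algebraMap ℝ ℂ) =
        (S.map fun s : ℝ => (X + C (s : ℂ) : ℂ[X])).prod := by
      rw [Polynomial.map_multiset_prod, Multiset.map_map]
      congr 1
      refine Multiset.map_congr rfl fun s _ => ?_
      simp
    rw [h3] at h2
    rcases mul_eq_zero.1 h2.symm with h4 | h4
    · simp at h4; exact hlead (by simpa using h4)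
    · exact h1 h4
  rcases lt_or_gt_of_ne him with h | h
  · have h1 : aeval (starRingEnd ℂ z) P = 0 := by
      rw [Polynomial.aeval_conj, hz, map_zero]
    have h2 := key _ h1 (by simpa using h)
    have h3 : starRingEnd ℂ z + (a : ℂ) / 2 = starRingEnd ℂ (z + a / 2) := by
      rw [map_add, map_div₀, Complex.conj_ofReal, map_ofNat]
    rwa [h3, RCLike.norm_conj] at h2
  · exact key z hz h

/-- Let `a > 0`, let `e_k = x(x-1)...(x-k+1)/(a)_k`. The linear map `L` with `L(e_k) = x^k` exists, and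
every such `L` has the following properties. (1) For `n ≥ 1`, `a + n - 1` is the largest modulus of a zero of a polynomial `P` of
degree `n` such that all zeros of `L(P)` are real and in `[-1, 0]`. (2) If all zeros of `L(P)` are real
(`P ≠ 0` of degree `n`) then all non-real zeros `z` of `P` satisfy `|z + a/2| ≤ n - 1 + a/2`. -/
theorem result (a : ℝ) (ha : 0 < a) : (∃ L : ℝ[X] →ₗ[ℝ] ℝ[X], ∀ k, L (ek a k) = X ^ k) ∧
    ∀ L : ℝ[X] →ₗ[ℝ] ℝ[X], (∀ k, L (ek a k) = X ^ k) →
    (∀ n : ℕ, 1 ≤ n → IsGreatest {r : ℝ | ∃ P : ℝ[X], ∃ z : ℂ, P.natDegree = n ∧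
        ZerosInUnit (L P) ∧ aeval z P = 0 ∧ r = ‖z‖} (a + n - 1)) ∧
      ∀ P : ℝ[X], P ≠ 0 → (∀ w : ℂ, aeval w (L P) = 0 → w.im = 0) →
        ∀ z : ℂ, aeval z P = 0 → z.im ≠ 0 → ‖z + a / 2‖ ≤ P.natDegree - 1 + a / 2 := by
  refine ⟨exists_L ha, fun L hL => ?_⟩
  refine ⟨fun n hn => ⟨?_, ?_⟩, fun P hP0 hP z hz him => nonreal ha hL hP0 hP hz him⟩
  · refine ⟨Em a ((1 + X) ^ n), ((-(a + n - 1) : ℝ) : ℂ), ?_, ?_, ?_, ?_⟩
    · rw [Em_natDegree ha, natDegree_pow, show (1 + X : ℝ[X]) = X + C 1 by simp [add_comm],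
        natDegree_X_add_C, mul_one]
    · intro w hw
      rw [L_Em hL, map_pow] at hw
      have h1 := pow_eq_zero_iff (by omega : n ≠ 0) |>.1 hw
      simp only [map_add, map_one, aeval_X] at h1
      have h2 : w = -1 := by linear_combination h1
      rw [h2]; norm_num
    · rw [aeval_eq ha hL, L_Em hL]
      have h1 := Lam_mixed (a := (a : ℂ)) (x := ((-(a + n - 1) : ℝ) : ℂ)) (add_natCast_ne ha) n 0
      rw [pow_zero, one_mul, prod_range_zero, one_mul] at h1
      have h2 : ∏ l ∈ range n, ((a : ℂ) + ((-(a + n - 1) : ℝ) : ℂ) + l) = 0 := by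
        refine prod_eq_zero (mem_range.2 (show n - 1 < n by omega)) ?_
        rw [Nat.cast_sub hn]
        push_cast
        ring
      rw [h2] at h1
      have h3 : ∏ l ∈ range (0 + n), ((a : ℂ) + l) ≠ 0 :=
        prod_ne_zero_iff.2 fun l _ => add_natCast_ne ha l
      have h4 := (mul_eq_zero.1 h1).resolve_right h3
      simpa using h4
    · rw [Complex.norm_real, Real.norm_eq_abs, abs_neg, abs_of_nonneg]
      have : (1 : ℝ) ≤ n := by exact_mod_cast hn
      linarith
  · rintro r ⟨P, z, hdeg, hZ, hz, rfl⟩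
    have hn1 : (1 : ℝ) ≤ n := by exact_mod_cast hn
    have hP0 : P ≠ 0 := by
      rintro rfl; simp at hdeg; omega
    by_cases him : z.im = 0
    · -- real zeros
      obtain ⟨S, hcard, hS, hroot⟩ := exists_multiset fun w hw => (hZ w hw).1
      rw [L_natDegree ha hL, hdeg] at hcard
      have hLP : L P ≠ 0 := by
        intro h
        have := Em_L ha hL P
        rw [h, map_zero] at this
        exact hP0 this.symm
      have hS01 : ∀ s ∈ S, 0 ≤ s ∧ s ≤ 1 := by
        intro s hs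
        have := hZ _ (hroot s hs hLP)
        simp only [Complex.ofReal_re] at this
        constructor <;> linarith [this.2.1, this.2.2]
      set x : ℝ := z.re with hx
      have hzx : z = (x : ℂ) := Complex.ext rfl (by simpa using him)
      have hev : Lam a x (S.map fun s => (X + C s : ℝ[X])).prod = 0 := by
        have h1 := aeval_eq ha hL x P
        have h2 : aeval x P = 0 := by
          have h3 : aeval ((algebraMap ℝ ℂ) x) P = algebraMap ℝ ℂ (aeval x P) := by
            rw [aeval_algebraMap_apply]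
          have h4 : ((aeval x P : ℝ) : ℂ) = 0 := by
            rw [hzx] at hz
            exact h3.symm.trans hz
          exact_mod_cast h4
        rw [h2] at h1
        simp only [Algebra.algebraMap_self, Polynomial.map_id, RingHom.id_apply] at h1
        rw [hS, Lam_C_mul] at h1
        exact (mul_eq_zero.1 h1.symm).resolve_left (leadingCoeff_ne_zero.2 hLP)
      rw [hzx, Complex.norm_real, Real.norm_eq_abs, abs_le]
      constructor
      · by_contra hcon
        push Not at hcon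
        have h1 := Lam_neg ha S hS01 0 0 (x := x) (by rw [add_zero, add_zero, hcard]; exact hcon)
          (by omega)
        rw [pow_zero, pow_zero, mul_one, mul_one, hev, mul_zero] at h1
        exact lt_irrefl _ h1
      · by_contra hcon
        push Not at hcon
        have h1 := Lam_pos ha S hS01 0 0 (x := x) (by rw [add_zero, add_zero, hcard]; linarith)
        rw [pow_zero, pow_zero, mul_one, mul_one, hev] at h1
        exact lt_irrefl _ h1
    · have h1 := nonreal ha hL hP0 (fun w hw => (hZ w hw).1) hz him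
      rw [hdeg] at h1
      have h2 : ‖z‖ ≤ ‖z + a / 2‖ + ‖(a : ℂ) / 2‖ := by
        have := norm_sub_le (z + a / 2) ((a : ℂ) / 2)
        rwa [add_sub_cancel_right] at this
      have h3 : ‖(a : ℂ) / 2‖ = a / 2 := by
        rw [norm_div, Complex.norm_real, Real.norm_eq_abs, abs_of_pos ha]; norm_num
      rw [h3] at h2
      linarith

end Pool.Agent.Results.MP_03af15_an.LargestZero
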